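import Pool.Agent.H74.BRB.Stmts

set_option autoImplicit false

namespace Pool.BRB

open MeasureTheory

theorem AEM (h1 : ONEStmt) (h2 : MEAStmt) (h3 : PRBStmt) : AEMStmt := by
  intro μ hμ
  have := h3.2
  have hm : MeasurableSet {p : (ℕ → Dir) × Triple | IsMaze p.2 → Solves p.1 p.2} := h2
  have h4 := (Measure.ae_ae_comm (μ := wordLaw) (ν := μ)
    (p := fun (A : ℕ → Dir) (m : Triple) => IsMaze m → Solves A m) hm).2
  apply h4
  refine Filter.Eventually.of_forall fun m => ?_
  by_cases hz : IsMaze m
  · filter_upwards [h1 m hz] with A hA _ using hA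
  · exact Filter.Eventually.of_forall fun A h => absurd h hz

end Pool.BRB
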